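import Mathlib

/-! A vanishing sum over fibre preserving permutations. -/

set_option autoImplicit false

namespace Pool.Agent.Y478.AM

open Finset Equiv

theorem key {D D' V V' : Type} [Fintype D] [Fintype D'] (ι : D ↪ D')
    (s : D → D) (s' : D' → D') (hs : ∀ d, s' (ι d) = ι (s d))
    (hs' : ∀ d', s' d' ∈ Set.range ι → d' ∈ Set.range ι)
    (fst : D → V) (fst' : D' → V') (j : V → V') (hj : Function.Injective j)
    (hfst : ∀ d, fst' (ι d) = j (fst d)) (e : D') (he : e ∉ Set.range ι)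
    (hr : ∀ d' v, fst' d' = j v → d' ∈ Set.range ι ∨ d' = e)
    (φ : D' → D' → ℂ) (Δ' : Finset D') (Δ : Finset D) (hΔ : ∀ d, d ∈ Δ ↔ ι d ∈ Δ')
    (P : Finset (Perm D)) (hP : ∀ g, g ∈ P ↔ ∀ d, fst (g d) = fst d)
    (A : Finset (Perm D')) (hA : ∀ σ, σ ∈ A ↔ (∀ d, fst' (σ d) = fst' d) ∧ σ e = e)
    (h0 : ∑ g ∈ P, ∏ d ∈ Δ, φ (ι (g d)) (ι (g (s d))) = 0) :
    ∑ σ ∈ A, ∏ d ∈ Δ', φ (σ d) (σ (s' d)) = 0 := by
  classical
  set F : Perm D' → ℂ := fun σ => ∏ d ∈ Δ', φ (σ d) (σ (s' d)) with hF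
  have hext1 : ∀ (g : Perm D) (d : D), g.viaEmbedding ι (ι d) = ι (g d) := fun g d =>
    Perm.viaEmbedding_apply g ι d
  have hext2 : ∀ (g : Perm D) (d' : D'), d' ∉ Set.range ι → g.viaEmbedding ι d' = d' :=
    fun g d' h => Perm.viaEmbedding_apply_of_notMem g ι d' h
  have hfe : ∀ g ∈ P, ∀ x, fst' (g.viaEmbedding ι x) = fst' x := by
    intro g hg x
    by_cases hx : x ∈ Set.range ι
    · obtain ⟨d, rfl⟩ := hx
      rw [hext1, hfst, hfst, (hP g).1 hg d]
    · rw [hext2 g x hx]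
  have h1 : ∀ g ∈ P, ∑ σ ∈ A, F (g.viaEmbedding ι * σ) = ∑ σ ∈ A, F σ := by
    intro g hg
    refine Finset.sum_equiv (Equiv.mulLeft (g.viaEmbedding ι)) ?_ (fun σ _ => rfl)
    intro σ
    rw [hA, hA]
    show _ ↔ (∀ d, fst' (g.viaEmbedding ι (σ d)) = fst' d) ∧ g.viaEmbedding ι (σ e) = e
    constructor
    · rintro ⟨a1, a2⟩
      refine ⟨fun d => by rw [hfe g hg, a1], ?_⟩
      rw [a2, hext2 g e he]
    · rintro ⟨a1, a2⟩
      refine ⟨fun d => by rw [← hfe g hg, a1], ?_⟩
      have a3 := hext2 g e he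
      exact (g.viaEmbedding ι).injective (a2.trans a3.symm)
  have h2 : ∀ σ ∈ A, ∑ g ∈ P, F (g.viaEmbedding ι * σ) = 0 := by
    intro σ hσ
    obtain ⟨a1, a2⟩ := (hA σ).1 hσ
    have hin : ∀ d, ∃ d1, ι d1 = σ (ι d) := by
      intro d
      rcases hr (σ (ι d)) (fst d) (by rw [a1, hfst]) with h | h
      · exact h
      · exfalso
        apply he
        refine ⟨d, ?_⟩
        exact σ.injective (h.trans a2.symm)
    choose t ht using hin
    have htinj : Function.Injective t := by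
      intro a b hab
      apply ι.injective
      apply σ.injective
      rw [← ht, ← ht, hab]
    let σ0 : Perm D := Equiv.ofBijective t (Finite.injective_iff_bijective.1 htinj)
    have hσ0 : ∀ d, ι (σ0 d) = σ (ι d) := ht
    have hσ0P : ∀ d, fst (σ0 d) = fst d := by
      intro d
      apply hj
      rw [← hfst, ← hfst, hσ0, a1]
    have hout : ∀ d', d' ∉ Set.range ι → σ d' ∉ Set.range ι := by
      rintro d' hd' ⟨d1, hd1⟩
      apply hd'
      refine ⟨σ0.symm d1, ?_⟩
      apply σ.injective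
      rw [← hσ0, Equiv.apply_symm_apply, hd1]
    have hsplit : ∀ g : Perm D, F (g.viaEmbedding ι * σ) =
        (∏ d ∈ Δ, φ (ι ((g * σ0) d)) (ι ((g * σ0) (s d)))) *
          ∏ d ∈ Δ'.filter (fun d => d ∉ Set.range ι), φ (σ d) (σ (s' d)) := by
      intro g
      rw [hF]
      dsimp only
      rw [← Finset.prod_filter_mul_prod_filter_not Δ' (fun d => d ∈ Set.range ι)]
      congr 1
      · have hmap : Δ'.filter (fun d => d ∈ Set.range ι) = Δ.map ι := by
          ext d
          rw [Finset.mem_filter, Finset.mem_map]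
          constructor
          · rintro ⟨b1, ⟨d0, rfl⟩⟩
            exact ⟨d0, (hΔ d0).2 b1, rfl⟩
          · rintro ⟨d0, b1, rfl⟩
            exact ⟨(hΔ d0).1 b1, ⟨d0, rfl⟩⟩
        rw [hmap, Finset.prod_map]
        refine Finset.prod_congr rfl fun d _ => ?_
        rw [Perm.mul_apply, Perm.mul_apply, hs, ← hσ0, ← hσ0, hext1, hext1]
        rfl
      · refine Finset.prod_congr rfl fun d hd => ?_
        have hd' := (Finset.mem_filter.1 hd).2
        have hd2 : s' d ∉ Set.range ι := fun h => hd' (hs' d h)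
        rw [Perm.mul_apply, Perm.mul_apply, hext2 g _ (hout d hd'), hext2 g _ (hout _ hd2)]
    rw [Finset.sum_congr rfl fun g _ => hsplit g, ← Finset.sum_mul]
    have h3 : ∑ g ∈ P, ∏ d ∈ Δ, φ (ι ((g * σ0) d)) (ι ((g * σ0) (s d))) = 0 := by
      rw [← h0]
      refine Finset.sum_equiv (Equiv.mulRight σ0) ?_ (fun g _ => rfl)
      intro g
      rw [hP, hP]
      show _ ↔ ∀ d, fst (g (σ0 d)) = fst d
      constructor
      · intro b d
        rw [b, hσ0P]
      · intro b d
        have := b (σ0.symm d)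
        rw [Equiv.apply_symm_apply] at this
        rw [this]
        have h5 := hσ0P (σ0.symm d)
        rw [Equiv.apply_symm_apply] at h5
        exact h5.symm
    rw [h3, zero_mul]
  have h4 : (P.card : ℂ) * ∑ σ ∈ A, F σ = 0 := by
    rw [← nsmul_eq_mul, ← Finset.sum_const, ← Finset.sum_congr rfl h1, Finset.sum_comm,
      Finset.sum_congr rfl h2, Finset.sum_const_zero]
  rcases mul_eq_zero.1 h4 with h5 | h5
  · exfalso
    have h6 : P.card = 0 := by exact_mod_cast h5
    rw [Finset.card_eq_zero] at h6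
    have h7 : (1 : Perm D) ∈ P := (hP 1).2 fun d => rfl
    rw [h6] at h7
    exact absurd h7 (Finset.notMem_empty _)
  · exact h5

end Pool.Agent.Y478.AM
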