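import Pool.Agent.Results.MP_b525e0_co.DoubleStarZero
import Pool.Agent.Y478.AM.Key

/-! Gluing a graph at a leaf. -/

set_option autoImplicit false

namespace Pool.Agent.Y478.AM

open Finset Equiv Pool.Agent.Results.MP_b525e0_co.DoubleStarZero

section
variable {V W : Type}

/-- The graph obtained from the disjoint union of `G` and `H` by adding the edge from the vertex
`l` of `G` to the vertex `h` of `H`. -/
def glue (G : SimpleGraph V) (H : SimpleGraph W) (l : V) (h : W) : SimpleGraph (V ⊕ W) where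
  Adj a b := match a, b with
    | Sum.inl a, Sum.inl b => G.Adj a b
    | Sum.inl a, Sum.inr b => a = l ∧ b = h
    | Sum.inr a, Sum.inl b => b = l ∧ a = h
    | Sum.inr a, Sum.inr b => H.Adj a b
  symm := ⟨by
    rintro (a | a) (b | b) hab
    · exact G.symm.symm _ _ hab
    · exact hab
    · exact hab
    · exact H.symm.symm _ _ hab⟩
  loopless := ⟨by
    rintro (a | a) hab
    · exact G.loopless.irrefl _ hab
    · exact H.loopless.irrefl _ hab⟩

variable (G : SimpleGraph V) (H : SimpleGraph W) (l : V) (h : W)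

/-- The darts of `G` as darts of the glued graph. -/
def io : G.Dart ↪ (glue G H l h).Dart where
  toFun d := ⟨(Sum.inl d.fst, Sum.inl d.snd), d.adj⟩
  inj' := by
    intro d d' hd
    have h1 := congrArg (fun x : (glue G H l h).Dart => x.fst) hd
    have h2 := congrArg (fun x : (glue G H l h).Dart => x.snd) hd
    exact SimpleGraph.Dart.ext _ _ (Prod.ext (Sum.inl_injective h1) (Sum.inl_injective h2))

theorem io_fst (d : G.Dart) : (io G H l h d).fst = Sum.inl d.fst := rfl
theorem io_snd (d : G.Dart) : (io G H l h d).snd = Sum.inl d.snd := rfl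

theorem mem_range_io (d : (glue G H l h).Dart) :
    d ∈ Set.range (io G H l h) ↔ (∃ a b, d.fst = Sum.inl a ∧ d.snd = Sum.inl b) := by
  constructor
  · rintro ⟨d0, rfl⟩
    exact ⟨d0.fst, d0.snd, rfl, rfl⟩
  · rintro ⟨a, b, h1, h2⟩
    obtain ⟨⟨x, y⟩, hxy⟩ := d
    obtain rfl : x = Sum.inl a := h1
    obtain rfl : y = Sum.inl b := h2
    exact ⟨⟨(a, b), hxy⟩, rfl⟩

/-- The new dart. -/
def nd : (glue G H l h).Dart := ⟨(Sum.inl l, Sum.inr h), ⟨rfl, rfl⟩⟩

theorem nd_notMem : nd G H l h ∉ Set.range (io G H l h) := by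
  rw [mem_range_io]
  rintro ⟨a, b, -, h2⟩
  exact absurd h2 (by simp [nd])

theorem dart_inl (d : (glue G H l h).Dart) (a : V) (ha : d.fst = Sum.inl a) :
    d ∈ Set.range (io G H l h) ∨ d = nd G H l h := by
  obtain ⟨⟨x, y⟩, hxy⟩ := d
  obtain rfl : x = Sum.inl a := ha
  rcases y with b | b
  · left
    exact ⟨⟨(a, b), hxy⟩, rfl⟩
  · right
    obtain ⟨h1, h2⟩ : a = l ∧ b = h := hxy
    subst h1 h2
    rfl

/-- scaling the spinors -/
theorem prod_scale {U : Type} [Fintype U] (K : SimpleGraph U) [Fintype K.Dart]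
    (Δ : Finset K.Dart) (hΔ : IsOrientation K Δ) (χ : K.Dart → Fin 2 → ℂ) (c : K.Dart → ℂ)
    (σ : Perm K.Dart) :
    ∏ d ∈ Δ, omega (c (σ d) • χ (σ d)) (c (σ d.symm) • χ (σ d.symm)) =
      (∏ d, c d) * ∏ d ∈ Δ, omega (χ (σ d)) (χ (σ d.symm)) := by
  classical
  have h1 : ∀ d ∈ Δ, omega (c (σ d) • χ (σ d)) (c (σ d.symm) • χ (σ d.symm)) =
      (c (σ d) * c (σ d.symm)) * omega (χ (σ d)) (χ (σ d.symm)) := by
    intro d _
    simp only [omega, Pi.smul_apply, smul_eq_mul]
    ring
  rw [Finset.prod_congr rfl h1, Finset.prod_mul_distrib]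
  congr 1
  rw [Finset.prod_mul_distrib, ← Equiv.prod_comp σ c]
  have h2 : ∏ d ∈ Δ, c (σ d.symm) = ∏ d ∈ Δᶜ, c (σ d) := by
    refine Finset.prod_bij' (fun d _ => d.symm) (fun d _ => d.symm) ?_ ?_ ?_ ?_ ?_
    · intro d hd
      rw [Finset.mem_compl]
      rcases hΔ d with h3 | h3
      · exact h3.2
      · exact absurd hd h3.1
    · intro d hd
      rw [Finset.mem_compl] at hd
      rcases hΔ d with h3 | h3
      · exact absurd h3.1 hd
      · exact h3.2
    · intro d _
      exact SimpleGraph.Dart.symm_symm d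
    · intro d _
      exact SimpleGraph.Dart.symm_symm d
    · intro d _
      rfl
  rw [h2, Finset.prod_mul_prod_compl]

end

end Pool.Agent.Y478.AM
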