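import Pool.Agent.Y478.AM.Num

/-! Vanishing of the amplitude is preserved by gluing an arbitrary graph at a leaf. -/

set_option autoImplicit false

namespace Pool.Agent.Y478.AM

open Finset Equiv Pool.Agent.Results.MP_b525e0_co.DoubleStarZero

/-- `x` is a configuration of `G` at which the amplitude vanishes: for every choice of the spinors
and of the orientation the denominator is nonzero and the amplitude is zero (and such choices
exist). -/
def VanishesAt {V : Type} [Fintype V] (G : SimpleGraph V) (x : V → R3) : Prop :=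
  IsConfiguration G x ∧
    (∃ ψ : G.Dart → Fin 2 → ℂ, IsSpinorChoice G x ψ) ∧
    (∃ Δ : Finset G.Dart, IsOrientation G Δ) ∧
    ∀ (ψ : G.Dart → Fin 2 → ℂ) (Δ : Finset G.Dart), IsSpinorChoice G x ψ → IsOrientation G Δ →
      denominator G ψ Δ ≠ 0 ∧ amplitude G ψ Δ = 0

theorem spinor_prop {u : R3} {a b : Fin 2 → ℂ} (ha : IsSpinorOf u a) (hb : IsSpinorOf u b) :
    ∃ c : ℂ, a = c • b := by
  obtain ⟨a1, a2⟩ := spinor_eqs ha
  obtain ⟨b1, b2⟩ := spinor_eqs hb
  have hX : a 0 * b 1 - a 1 * b 0 = 0 := by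
    linear_combination (1 / 2 : ℂ) * (-b 1 * a1 + a 1 * b1 + b 0 * a2 - a 0 * b2)
  by_cases h0 : b 0 = 0
  · have h1 : b 1 ≠ 0 := fun h1 => nz hb ⟨h0, h1⟩
    refine ⟨a 1 / b 1, ?_⟩
    ext i
    fin_cases i
    · show a 0 = a 1 / b 1 * b 0
      field_simp
      linear_combination hX
    · show a 1 = a 1 / b 1 * b 1
      field_simp
  · refine ⟨a 0 / b 0, ?_⟩
    ext i
    fin_cases i
    · show a 0 = a 0 / b 0 * b 0
      field_simp
    · show a 1 = a 0 / b 0 * b 1
      field_simp
      linear_combination -hX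

theorem exists_choice {V : Type} (G : SimpleGraph V) (x : V → R3) (hx : IsConfiguration G x) :
    ∃ ψ : G.Dart → Fin 2 → ℂ, IsSpinorChoice G x ψ := by
  have h : ∀ d : G.Dart, ∃ ψ, IsSpinorOf (direction x d.fst d.snd) ψ := by
    intro d
    apply exists_spinor
    have hne : x d.snd - x d.fst ≠ 0 := by
      rw [sub_ne_zero]
      exact fun h => hx _ _ d.adj h.symm
    rw [direction, norm_smul, norm_inv, norm_norm]
    exact inv_mul_cancel₀ (norm_ne_zero_iff.2 hne)
  choose ψ hψ using h
  exact ⟨ψ, hψ⟩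

theorem exists_orientation {V : Type} [Fintype V] (G : SimpleGraph V) :
    ∃ Δ : Finset G.Dart, IsOrientation G Δ := by
  classical
  let e := Fintype.equivFin V
  refine ⟨univ.filter fun d => e d.fst < e d.snd, fun d => ?_⟩
  simp only [Finset.mem_filter, Finset.mem_univ, true_and]
  have hne : e d.fst ≠ e d.snd := fun h => d.adj.ne (e.injective h)
  show (e d.fst < e d.snd ∧ ¬ e d.snd < e d.fst) ∨ (¬ e d.fst < e d.snd ∧ e d.snd < e d.fst)
  rcases lt_or_gt_of_ne hne with h | h
  · exact Or.inl ⟨h, h.asymm⟩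
  · exact Or.inr ⟨h.asymm, h⟩

theorem denominator_ne {V : Type} (G : SimpleGraph V) (x : V → R3) (ψ : G.Dart → Fin 2 → ℂ)
    (Δ : Finset G.Dart) (hψ : IsSpinorChoice G x ψ) : denominator G ψ Δ ≠ 0 := by
  rw [denominator, Finset.prod_ne_zero_iff]
  intro d _
  refine omega_ne_zero (hψ d) ?_
  rw [← direction_symm]
  exact hψ d.symm

theorem numerator_eq_zero {V : Type} [Fintype V] {G : SimpleGraph V} {x : V → R3}
    (h : VanishesAt G x) (ψ : G.Dart → Fin 2 → ℂ) (Δ : Finset G.Dart)
    (hψ : IsSpinorChoice G x ψ) (hΔ : IsOrientation G Δ) : numerator G ψ Δ = 0 := by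
  obtain ⟨h1, h2⟩ := h.2.2.2 ψ Δ hψ hΔ
  rw [amplitude, div_eq_zero_iff] at h2
  exact h2.resolve_right h1

/-- **Gluing at a leaf.** -/
theorem vanishes_glue {V W : Type} [Fintype V] [Fintype W] (G : SimpleGraph V) (x : V → R3)
    (hG : VanishesAt G x) (l v : V) (hv : ∀ b, G.Adj l b ↔ b = v) (H : SimpleGraph W) (h : W)
    (z : W → R3) (hz : IsConfiguration H z) (hne : x l ≠ z h)
    (hdir : direction (Sum.elim x z) (Sum.inl l) (Sum.inr h) = direction x l v) :
    VanishesAt (glue G H l h) (Sum.elim x z) := by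
  have hcfg : IsConfiguration (glue G H l h) (Sum.elim x z) := by
    rintro (a | a) (b | b) hab
    · exact hG.1 a b hab
    · obtain ⟨rfl, rfl⟩ : a = l ∧ b = h := hab
      exact hne
    · obtain ⟨rfl, rfl⟩ : b = l ∧ a = h := hab
      exact hne.symm
    · exact hz a b hab
  refine ⟨hcfg, exists_choice _ _ hcfg, exists_orientation _, fun ψ Δ hψ hΔ => ?_⟩
  refine ⟨denominator_ne _ _ ψ Δ hψ, ?_⟩
  have h1 := hψ (nd G H l h)
  have h2 := hψ (io G H l h ⟨(l, v), (hv v).2 rfl⟩)
  have h3 : direction (Sum.elim x z) (nd G H l h).fst (nd G H l h).snd =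
      direction (Sum.elim x z) (io G H l h ⟨(l, v), (hv v).2 rfl⟩).fst
        (io G H l h ⟨(l, v), (hv v).2 rfl⟩).snd := hdir
  rw [← h3] at h2
  obtain ⟨c, hc⟩ := spinor_prop h1 h2
  rw [amplitude, numerator_glue G H l h v hv ψ Δ hΔ c hc, zero_div]
  exact numerator_eq_zero hG _ _ (fun d => hψ (io G H l h d)) (isOrientation_resO G H l h Δ hΔ)

/-- the translation can be chosen such that all points are distinct -/
theorem exists_translation {V W : Type} [Fintype V] [Fintype W] (x : V → R3)
    (hx : Function.Injective x) (l v : V) (hlv : l ≠ v) (h : W)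
    (y : W → R3) (hy : Function.Injective y) :
    ∃ c : R3, Function.Injective (Sum.elim x (fun w => y w + c)) ∧
      direction (Sum.elim x (fun w => y w + c)) (Sum.inl l) (Sum.inr h) = direction x l v := by
  classical
  have hu : x v - x l ≠ 0 := by
    rw [sub_ne_zero]
    exact fun h => hlv (hx h.symm)
  -- the bad parameters
  have hbad : ∀ p : V × W, ({t : ℝ | x p.1 = y p.2 - y h + x v + t • (x v - x l)}).Finite := by
    intro p
    apply Set.Subsingleton.finite
    intro t ht t' ht'
    have e1 : x p.1 = y p.2 - y h + x v + t • (x v - x l) := ht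
    have e2 : x p.1 = y p.2 - y h + x v + t' • (x v - x l) := ht'
    have e3 : (t - t') • (x v - x l) = 0 := by
      rw [sub_smul, sub_eq_zero]
      exact add_left_cancel (e1.symm.trans e2)
    rcases smul_eq_zero.1 e3 with h3 | h3
    · linarith
    · exact absurd h3 hu
  have hfin : (⋃ p : V × W, {t : ℝ | x p.1 = y p.2 - y h + x v + t • (x v - x l)}).Finite :=
    Set.finite_iUnion hbad
  obtain ⟨t, ht, htb⟩ := (Set.Ioi_infinite (0 : ℝ)).exists_notMem_finite hfin
  have ht0 : (0 : ℝ) < t := ht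
  have htb' : ∀ (a : V) (w : W), x a ≠ y w - y h + x v + t • (x v - x l) := by
    intro a w hc
    exact htb (Set.mem_iUnion.2 ⟨(a, w), hc⟩)
  refine ⟨x v + t • (x v - x l) - y h, ?_, ?_⟩
  · rintro (a | a) (b | b) hab
    · exact congrArg Sum.inl (hx hab)
    · exfalso
      have h1 : x a = y b + (x v + t • (x v - x l) - y h) := hab
      apply htb' a b
      rw [h1]
      abel
    · exfalso
      have h1 : y a + (x v + t • (x v - x l) - y h) = x b := hab
      apply htb' b a
      rw [← h1]
      abel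
    · have h1 : y a + (x v + t • (x v - x l) - y h) = y b + (x v + t • (x v - x l) - y h) := hab
      exact congrArg Sum.inr (hy (add_right_cancel h1))
  · have hn : ‖(‖x v - x l‖)⁻¹ • (x v - x l)‖ = 1 := by
      rw [norm_smul, norm_inv, norm_norm]
      exact inv_mul_cancel₀ (norm_ne_zero_iff.2 hu)
    have hnpos : 0 < ‖x v - x l‖ := norm_pos_iff.2 hu
    refine (direction_eq (t := (1 + t) * ‖x v - x l‖) (n := (‖x v - x l‖)⁻¹ • (x v - x l))
      (by positivity) hn ?_)
    show y h + (x v + t • (x v - x l) - y h) - x l = _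
    rw [smul_smul, mul_assoc, mul_inv_cancel₀ hnpos.ne', mul_one, add_smul, one_smul]
    abel

end Pool.Agent.Y478.AM
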