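import Pool.Agent.Y478.AM.Glue

/-! The numerator of the amplitude of a glued graph. -/

set_option autoImplicit false

namespace Pool.Agent.Y478.AM

open Finset Equiv Pool.Agent.Results.MP_b525e0_co.DoubleStarZero

section
variable {V W : Type} [Fintype V] [Fintype W]
  (G : SimpleGraph V) (H : SimpleGraph W) (l : V) (h : W)

omit [Fintype V] [Fintype W] in
theorem mem_fibrePerms {U : Type} [Fintype U] (K : SimpleGraph U) (σ : Perm K.Dart) :
    σ ∈ fibrePerms K ↔ ∀ d : K.Dart, (σ d).fst = d.fst := by
  simp [fibrePerms]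

/-- the restriction of an orientation -/
noncomputable def resO (Δ : Finset (glue G H l h).Dart) : Finset G.Dart := by
  classical exact univ.filter fun d => io G H l h d ∈ Δ

omit [Fintype W] in
theorem mem_resO (Δ : Finset (glue G H l h).Dart) (d : G.Dart) :
    d ∈ resO G H l h Δ ↔ io G H l h d ∈ Δ := by
  simp [resO]

omit [Fintype V] [Fintype W] in
theorem io_symm (d : G.Dart) : (io G H l h d).symm = io G H l h d.symm := rfl

omit [Fintype W] in
theorem isOrientation_resO (Δ : Finset (glue G H l h).Dart)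
    (hΔ : IsOrientation (glue G H l h) Δ) : IsOrientation G (resO G H l h Δ) := by
  intro d
  rw [mem_resO, mem_resO, ← io_symm]
  exact hΔ (io G H l h d)

theorem numerator_glue (v : V) (hv : ∀ b, G.Adj l b ↔ b = v)
    (ψ : (glue G H l h).Dart → Fin 2 → ℂ) (Δ : Finset (glue G H l h).Dart)
    (hΔ : IsOrientation (glue G H l h) Δ) (c : ℂ)
    (hc : ψ (nd G H l h) = c • ψ (io G H l h ⟨(l, v), (hv v).2 rfl⟩))
    (h0 : numerator G (fun d => ψ (io G H l h d)) (resO G H l h Δ) = 0) :
    numerator (glue G H l h) ψ Δ = 0 := by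
  classical
  set e : (glue G H l h).Dart := nd G H l h with he
  set e' : (glue G H l h).Dart := io G H l h ⟨(l, v), (hv v).2 rfl⟩ with he'
  have hne : e ≠ e' := fun hh => nd_notMem G H l h ⟨_, hh.symm⟩
  let χ : (glue G H l h).Dart → Fin 2 → ℂ := Function.update ψ e (ψ e')
  let cc : (glue G H l h).Dart → ℂ := Function.update (fun _ => 1) e c
  have hχe : χ e = ψ e' := Function.update_self _ _ _
  have hχ : ∀ d, d ≠ e → χ d = ψ d := fun d hd => Function.update_of_ne hd _ _
  have hψ : ∀ d, ψ d = cc d • χ d := by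
    intro d
    by_cases hd : d = e
    · rw [hd, hχe, hc]
      simp [cc]
    · rw [hχ d hd]
      simp [cc, hd]
  have hF : numerator (glue G H l h) ψ Δ = (∏ d, cc d) *
      ∑ σ ∈ fibrePerms (glue G H l h), ∏ d ∈ Δ, omega (χ (σ d)) (χ (σ d.symm)) := by
    rw [numerator, Finset.mul_sum]
    refine Finset.sum_congr rfl fun σ _ => ?_
    rw [← prod_scale (glue G H l h) Δ hΔ χ cc σ]
    refine Finset.prod_congr rfl fun d _ => ?_
    rw [hψ (σ d), hψ (σ d.symm)]
  rw [hF]
  have hA : ∑ σ ∈ (fibrePerms (glue G H l h)).filter (fun σ => σ e = e),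
      ∏ d ∈ Δ, omega (χ (σ d)) (χ (σ d.symm)) = 0 := by
    refine key (io G H l h) (fun d => d.symm) (fun d => d.symm) (fun d => rfl) ?_
      (fun d => d.fst) (fun d => d.fst) Sum.inl Sum.inl_injective (fun d => rfl) e
      (nd_notMem G H l h) (fun d' a ha => dart_inl G H l h d' a ha)
      (fun x y => omega (χ x) (χ y)) Δ (resO G H l h Δ) (mem_resO G H l h Δ) (fibrePerms G)
      (mem_fibrePerms G) _ ?_ ?_
    · intro d' hd'
      rw [mem_range_io] at hd' ⊢
      obtain ⟨a, b, h1, h2⟩ := hd'
      exact ⟨b, a, h2, h1⟩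
    · intro σ
      rw [Finset.mem_filter, mem_fibrePerms]
    · rw [← h0, numerator]
      refine Finset.sum_congr rfl fun g _ => Finset.prod_congr rfl fun d _ => ?_
      rw [hχ _ (fun hh => nd_notMem G H l h ⟨_, hh⟩), hχ _ (fun hh => nd_notMem G H l h ⟨_, hh⟩)]
  have hswap : ∀ x, χ (swap e e' x) = χ x := by
    intro x
    by_cases h1 : x = e
    · rw [h1, swap_apply_left, hχe, hχ e' hne.symm]
    · by_cases h2 : x = e'
      · rw [h2, swap_apply_right, hχe, hχ e' hne.symm]
      · rw [swap_apply_of_ne_of_ne h1 h2]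
  have hsf : ∀ x : (glue G H l h).Dart, (swap e e' x).fst = x.fst := by
    intro x
    by_cases h1 : x = e
    · rw [h1, swap_apply_left]
      rfl
    · by_cases h2 : x = e'
      · rw [h2, swap_apply_right]
        rfl
      · rw [swap_apply_of_ne_of_ne h1 h2]
  have hB : ∑ σ ∈ (fibrePerms (glue G H l h)).filter (fun σ => ¬ σ e = e),
      ∏ d ∈ Δ, omega (χ (σ d)) (χ (σ d.symm)) =
      ∑ σ ∈ (fibrePerms (glue G H l h)).filter (fun σ => σ e = e),
      ∏ d ∈ Δ, omega (χ (σ d)) (χ (σ d.symm)) := by
    refine Finset.sum_equiv (Equiv.mulLeft (swap e e')) ?_ ?_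
    · intro σ
      rw [Finset.mem_filter, Finset.mem_filter, mem_fibrePerms, mem_fibrePerms]
      show _ ↔ (∀ d, (swap e e' (σ d)).fst = d.fst) ∧ swap e e' (σ e) = e
      constructor
      · rintro ⟨h1, h2⟩
        refine ⟨fun d => by rw [hsf, h1], ?_⟩
        have h3 : (σ e).fst = Sum.inl l := h1 e
        rcases dart_inl G H l h (σ e) l h3 with h4 | h4
        · rw [mem_range_io] at h4
          obtain ⟨a, b, h5, h6⟩ := h4
          rw [h5] at h3
          have h7 : a = l := Sum.inl_injective h3
          rw [h7] at h5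
          have h8 : σ e = e' := by
            refine SimpleGraph.Dart.ext _ _ (Prod.ext h5 ?_)
            have h9 : (glue G H l h).Adj (σ e).fst (σ e).snd := (σ e).adj
            rw [h5, h6] at h9
            have h10 : b = v := (hv b).1 h9
            show (σ e).snd = Sum.inl v
            rw [h6, h10]
          rw [h8, swap_apply_right]
        · exact absurd h4 h2
      · rintro ⟨h1, h2⟩
        refine ⟨fun d => by rw [← hsf, h1], ?_⟩
        intro h3
        rw [h3, swap_apply_left] at h2
        exact hne h2.symm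
    · intro σ _
      refine Finset.prod_congr rfl fun d _ => ?_
      show _ = omega (χ (swap e e' (σ d))) (χ (swap e e' (σ d.symm)))
      rw [hswap, hswap]
  rw [← Finset.sum_filter_add_sum_filter_not (fibrePerms (glue G H l h)) (fun σ => σ e = e), hB, hA, add_zero,
    mul_zero]

end

end Pool.Agent.Y478.AM
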