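import Pool.Agent.Y478.AM.Main

/-! Connectedness and trees. -/

set_option autoImplicit false

namespace Pool.Agent.Y478.AM

open Finset Pool.Agent.Results.MP_b525e0_co.DoubleStarZero

section
variable {V W : Type} (G : SimpleGraph V) (H : SimpleGraph W) (l : V) (h : W)

/-- `H` is an induced subgraph of the glued graph. -/
def emR : H ↪g glue G H l h where
  toFun := Sum.inr
  inj' := Sum.inr_injective
  map_rel_iff' := Iff.rfl

/-- `G` is an induced subgraph of the glued graph. -/
def emL : G ↪g glue G H l h where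
  toFun := Sum.inl
  inj' := Sum.inl_injective
  map_rel_iff' := Iff.rfl

theorem connected_glue (hG : G.Connected) (hH : H.Connected) : (glue G H l h).Connected := by
  have h0 : (glue G H l h).Adj (Sum.inl l) (Sum.inr h) := ⟨rfl, rfl⟩
  have h1 : ∀ v, (glue G H l h).Reachable (Sum.inl l) v := by
    rintro (a | a)
    · exact (hG.preconnected l a).map (emL G H l h).toHom
    · exact h0.reachable.trans ((hH.preconnected h a).map (emR G H l h).toHom)
  have : Nonempty (V ⊕ W) := ⟨Sum.inl l⟩
  exact ⟨fun u v => (h1 u).symm.trans (h1 v)⟩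

theorem card_edges_glue [Fintype V] [Fintype W] :
    Nat.card (glue G H l h).edgeSet = Nat.card G.edgeSet + Nat.card H.edgeSet + 1 := by
  classical
  rw [Nat.card_eq_fintype_card, Nat.card_eq_fintype_card, Nat.card_eq_fintype_card,
    ← SimpleGraph.edgeFinset_card, ← SimpleGraph.edgeFinset_card, ← SimpleGraph.edgeFinset_card]
  let eL : Sym2 V ↪ Sym2 (V ⊕ W) := ⟨Sym2.map Sum.inl, Sym2.map.injective Sum.inl_injective⟩
  let eR : Sym2 W ↪ Sym2 (V ⊕ W) := ⟨Sym2.map Sum.inr, Sym2.map.injective Sum.inr_injective⟩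
  have hL : ∀ a b : V, eL s(a, b) = s(Sum.inl a, Sum.inl b) := fun _ _ => rfl
  have hR : ∀ a b : W, eR s(a, b) = s(Sum.inr a, Sum.inr b) := fun _ _ => rfl
  have hE : (glue G H l h).edgeFinset =
      insert s(Sum.inl l, Sum.inr h) (G.edgeFinset.map eL ∪ H.edgeFinset.map eR) := by
    ext e
    rw [SimpleGraph.mem_edgeFinset, Finset.mem_insert, Finset.mem_union, Finset.mem_map,
      Finset.mem_map]
    induction e using Sym2.ind with
    | _ a b =>
      rw [SimpleGraph.mem_edgeSet]
      constructor
      · intro hab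
        rcases a with a | a <;> rcases b with b | b
        · exact Or.inr (Or.inl ⟨s(a, b), SimpleGraph.mem_edgeFinset.2 hab, rfl⟩)
        · obtain ⟨rfl, rfl⟩ : a = l ∧ b = h := hab
          exact Or.inl rfl
        · obtain ⟨rfl, rfl⟩ : b = l ∧ a = h := hab
          exact Or.inl Sym2.eq_swap
        · exact Or.inr (Or.inr ⟨s(a, b), SimpleGraph.mem_edgeFinset.2 hab, rfl⟩)
      · rintro (h1 | ⟨e1, h1, h2⟩ | ⟨e1, h1, h2⟩)
        · rw [← SimpleGraph.mem_edgeSet, h1, SimpleGraph.mem_edgeSet]
          exact ⟨rfl, rfl⟩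
        · induction e1 using Sym2.ind with
          | _ x y =>
            rw [SimpleGraph.mem_edgeFinset, SimpleGraph.mem_edgeSet] at h1
            rw [← SimpleGraph.mem_edgeSet, ← h2, hL, SimpleGraph.mem_edgeSet]
            exact h1
        · induction e1 using Sym2.ind with
          | _ x y =>
            rw [SimpleGraph.mem_edgeFinset, SimpleGraph.mem_edgeSet] at h1
            rw [← SimpleGraph.mem_edgeSet, ← h2, hR, SimpleGraph.mem_edgeSet]
            exact h1
  have hd : Disjoint (G.edgeFinset.map eL) (H.edgeFinset.map eR) := by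
    rw [Finset.disjoint_left]
    intro e h1 h2
    rw [Finset.mem_map] at h1 h2
    obtain ⟨e1, -, rfl⟩ := h1
    obtain ⟨e2, -, h2⟩ := h2
    induction e1 using Sym2.ind with
    | _ a b =>
      induction e2 using Sym2.ind with
      | _ c d =>
        rw [hL, hR] at h2
        simp at h2
  have hn : s(Sum.inl l, Sum.inr h) ∉ G.edgeFinset.map eL ∪ H.edgeFinset.map eR := by
    rw [Finset.mem_union, Finset.mem_map, Finset.mem_map]
    rintro (⟨e1, -, h2⟩ | ⟨e1, -, h2⟩)
    · induction e1 using Sym2.ind with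
      | _ x y =>
        rw [hL] at h2
        simp at h2
    · induction e1 using Sym2.ind with
      | _ x y =>
        rw [hR] at h2
        simp at h2
  rw [hE, Finset.card_insert_of_notMem hn, Finset.card_union_of_disjoint hd, Finset.card_map,
    Finset.card_map]

theorem isTree_glue [Fintype V] [Fintype W] (hG : G.IsTree) (hH : H.IsTree) :
    (glue G H l h).IsTree := by
  rw [SimpleGraph.isTree_iff_connected_and_card] at *
  refine ⟨connected_glue G H l h hG.1 hH.1, ?_⟩
  rw [card_edges_glue, Nat.card_sum]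
  have h1 := hG.2
  have h2 := hH.2
  omega

end

theorem vanishes_doubleStar : VanishesAt doubleStar pos := by
  have hcfg : IsConfiguration doubleStar pos := fun i j h hc => h.ne (pos_injective hc)
  refine ⟨hcfg, exists_choice _ _ hcfg, exists_orientation _, fun ψ Δ hψ hΔ => ?_⟩
  refine ⟨denominator_ne _ _ ψ Δ hψ, ?_⟩
  rw [amplitude, numerator_zero hψ Δ hΔ, zero_div]

theorem leaf_two : ∀ b : Fin 12, doubleStar.Adj 2 b ↔ b = 0 := by decide

theorem exists_tree (m : ℕ) (hm : 1 ≤ m) : ∃ T : SimpleGraph (Fin m), T.IsTree := by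
  have : Nonempty (Fin m) := ⟨⟨0, hm⟩⟩
  obtain ⟨T, -, hT⟩ := (SimpleGraph.connected_top (V := Fin m)).exists_isTree_le
  exact ⟨T, hT⟩

end Pool.Agent.Y478.AM
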